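import Mathlib

/-!
# Piece U3 of `upper_main` (S07133): double counting, Kovari-Sos-Turan, min degree subset
-/

set_option autoImplicit false
set_option linter.unusedVariables false

namespace Pool.Agent.Helper97.RE
open Finset Classical

/-- if every `a ∈ S` is related to at least `d / E` elements of `T`, then at least `d / (2 E)`
elements of `T` are related to at least `h` elements of `S` -/
theorem dc {α β : Type*} (S : Finset α) (T : Finset β) (r : α → β → Prop) (d K E h : ℕ)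
    (hS0 : S.Nonempty) (hS : 2 * h * K * E ≤ #S) (hT : #T ≤ K * d)
    (ha : ∀ a ∈ S, d ≤ E * #{b ∈ T | r a b}) :
    d ≤ 2 * E * #{b ∈ T | h ≤ #{a ∈ S | r a b}} := by
  set g := #{b ∈ T | h ≤ #{a ∈ S | r a b}} with hg
  have h1 : #S * d ≤ E * ∑ a ∈ S, #{b ∈ T | r a b} := by
    rw [mul_sum, ← smul_eq_mul, ← sum_const]
    exact sum_le_sum ha
  have h2 : ∑ a ∈ S, #{b ∈ T | r a b} = ∑ b ∈ T, #{a ∈ S | r a b} :=
    sum_card_bipartiteAbove_eq_sum_card_bipartiteBelow r
  have h3 : ∑ b ∈ T, #{a ∈ S | r a b} ≤ g * #S + #T * h := by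
    rw [← sum_filter_add_sum_filter_not T (fun b => h ≤ #{a ∈ S | r a b})]
    apply add_le_add
    · calc ∑ b ∈ T with h ≤ #{a ∈ S | r a b}, #{a ∈ S | r a b}
          ≤ ∑ b ∈ T with h ≤ #{a ∈ S | r a b}, #S := sum_le_sum fun b _ => card_filter_le _ _
        _ = g * #S := by rw [sum_const, smul_eq_mul]
    · calc ∑ b ∈ T with ¬ h ≤ #{a ∈ S | r a b}, #{a ∈ S | r a b}
          ≤ ∑ b ∈ T with ¬ h ≤ #{a ∈ S | r a b}, h := by
            apply sum_le_sum
            intro b hb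
            rw [mem_filter] at hb
            omega
        _ = #{b ∈ T | ¬ h ≤ #{a ∈ S | r a b}} * h := by rw [sum_const, smul_eq_mul]
        _ ≤ #T * h := Nat.mul_le_mul_right _ (card_filter_le _ _)
  have h4 : #S * d ≤ E * (g * #S + K * d * h) := by
    refine h1.trans (Nat.mul_le_mul_left _ ?_)
    rw [h2]
    exact h3.trans (Nat.add_le_add_left (Nat.mul_le_mul_right _ hT) _)
  have h5 : 2 * h * K * E * d ≤ #S * d := Nat.mul_le_mul_right _ hS
  have h6 : #S * d ≤ #S * (2 * E * g) := by nlinarith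
  exact Nat.le_of_mul_le_mul_left h6 hS0.card_pos

theorem kst (K E m : ℕ) : ∃ M d0 : ℕ, 1 ≤ M ∧ ∀ {α β : Type} (S : Finset α) (T : Finset β)
    (r : α → β → Prop) (d : ℕ), d0 ≤ d → #S = M → #T ≤ K * d →
    (∀ a ∈ S, d ≤ E * #{b ∈ T | r a b}) →
    ∃ A ⊆ S, ∃ B ⊆ T, #A = m ∧ #B = m ∧ ∀ a ∈ A, ∀ b ∈ B, r a b := by
  set M := 2 * m * K * E + m + 1 with hM
  refine ⟨M, 2 * E * (M.choose m * m) + 1, by omega, ?_⟩
  intro α β S T r d hd hSM hT ha
  have hS0 : S.Nonempty := by rw [← card_pos]; omega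
  have h1 := dc S T r d K E m hS0 (by omega) hT ha
  set B0 := {b ∈ T | m ≤ #{a ∈ S | r a b}} with hB0
  have h2 : M.choose m * m ≤ #B0 := by
    by_contra hc
    push Not at hc
    have : 2 * E * #B0 ≤ 2 * E * (M.choose m * m) := Nat.mul_le_mul_left _ hc.le
    omega
  have h3 : ∀ b : β, ∃ A : Finset α, b ∈ B0 → A ⊆ {a ∈ S | r a b} ∧ #A = m := by
    intro b
    by_cases hb : b ∈ B0
    · obtain ⟨A, hA, hA2⟩ := exists_subset_card_eq (mem_filter.1 hb).2
      exact ⟨A, fun _ => ⟨hA, hA2⟩⟩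
    · exact ⟨∅, fun h => absurd h hb⟩
  choose φ hφ using h3
  have hmaps : ∀ b ∈ B0, φ b ∈ S.powersetCard m := by
    intro b hb
    obtain ⟨h4, h5⟩ := hφ b hb
    exact mem_powersetCard.2 ⟨h4.trans (filter_subset _ _), h5⟩
  have hcard : #(S.powersetCard m) * m ≤ #B0 := by
    rw [card_powersetCard, hSM]; exact h2
  have hne : (S.powersetCard m).Nonempty := by
    rw [powersetCard_nonempty]; omega
  obtain ⟨A, hA, hA2⟩ := exists_le_card_fiber_of_mul_le_card_of_maps_to hmaps hne hcard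
  obtain ⟨B, hB, hB2⟩ := exists_subset_card_eq hA2
  obtain ⟨hA3, hA4⟩ := mem_powersetCard.1 hA
  refine ⟨A, hA3, B, ?_, hA4, hB2, ?_⟩
  · intro b hb
    exact (mem_filter.1 (mem_filter.1 (hB hb)).1).1
  · intro a haA b hb
    obtain ⟨hb0, hb1⟩ := mem_filter.1 (hB hb)
    have := (hφ b hb0).1
    rw [hb1] at this
    exact (mem_filter.1 (this haA)).2

theorem min_degree_subset {W : Type*} (G : SimpleGraph W) (X : Finset W) (D : ℕ)
    (hX : X.Nonempty) (h : 2 * D * #X ≤ ∑ x ∈ X, #{y ∈ X | G.Adj x y}) :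
    ∃ Y ⊆ X, Y.Nonempty ∧ ∀ y ∈ Y, D ≤ #{z ∈ Y | G.Adj y z} := by
  induction hn : #X using Nat.strong_induction_on generalizing X with
  | _ n ih =>
    by_cases hall : ∀ y ∈ X, D ≤ #{z ∈ X | G.Adj y z}
    · exact ⟨X, Subset.rfl, hX, hall⟩
    push Not at hall
    obtain ⟨y, hy, hyD⟩ := hall
    set X' := X.erase y with hX'
    have hsum : ∑ x ∈ X, #{z ∈ X | G.Adj x z} = ∑ x ∈ X', #{z ∈ X' | G.Adj x z} + 2 * #{z ∈ X | G.Adj y z} := by
      rw [← add_sum_erase X _ hy]
      have h1 : ∀ x ∈ X', #{z ∈ X | G.Adj x z} = #{z ∈ X' | G.Adj x z} + if G.Adj x y then 1 else 0 := by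
        intro x _
        rw [hX', filter_erase]
        split_ifs with hxy
        · rw [card_erase_of_mem (mem_filter.2 ⟨hy, hxy⟩)]
          have : 0 < #{z ∈ X | G.Adj x z} := card_pos.2 ⟨y, mem_filter.2 ⟨hy, hxy⟩⟩
          exact (Nat.sub_add_cancel this).symm
        · rw [erase_eq_of_notMem]; · rfl
          intro hmem; exact hxy (mem_filter.1 hmem).2
      rw [sum_congr rfl h1, sum_add_distrib, ← card_filter]
      have h2 : #{x ∈ X' | G.Adj x y} = #{z ∈ X | G.Adj y z} := by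
        rw [hX', filter_erase, erase_eq_of_notMem]
        · congr 1
          ext z
          simp only [mem_filter, G.adj_comm z y]
        · intro hmem; exact G.irrefl (mem_filter.1 hmem).2
      rw [h2]
      ring
    have hcard : #X' + 1 = #X := card_erase_add_one hy
    rw [hsum] at h
    have h3 : 2 * D * #X' + 2 ≤ ∑ x ∈ X', #{z ∈ X' | G.Adj x z} := by
      rw [← hcard] at h
      have : 2 * D * (#X' + 1) = 2 * D * #X' + 2 * D := by ring
      omega
    have hX'0 : X'.Nonempty := by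
      rw [nonempty_iff_ne_empty]
      intro he
      rw [he] at h3
      simp at h3
    obtain ⟨Y, hY, hY0, hY1⟩ := ih #X' (by omega) X' hX'0 (by omega) rfl
    exact ⟨Y, hY.trans (erase_subset _ _), hY0, hY1⟩

end Pool.Agent.Helper97.RE
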